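import Mathlib

namespace Pool.Agent.Results.MP_798c84_an.Pinwheel

open Finset

/-! ## Definitions -/

/-- real `n × m` matrices -/
abbrev Mat (n m : ℕ) := Matrix (Fin n) (Fin m) ℝ

/-- the Frobenius norm -/
noncomputable def frob {n m : ℕ} (A : Mat n m) : ℝ := Real.sqrt (∑ i, ∑ j, A i j ^ 2)

/-- the distance to `K` in the Frobenius norm -/
noncomputable def dK {n m : ℕ} (K : Set (Mat n m)) (A : Mat n m) : ℝ :=
  sInf ((fun B => frob (A - B)) '' K)

/-- rank-one convexity -/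
def RankOneConvex {n m : ℕ} (f : Mat n m → ℝ) : Prop :=
  ∀ A B : Mat n m, B.rank = 1 → ConvexOn ℝ Set.univ (fun t : ℝ => f (A + t • B))

/-- the rank-one convex hull -/
def convRC {n m : ℕ} (K : Set (Mat n m)) : Set (Mat n m) :=
  {A | ∀ f : Mat n m → ℝ, RankOneConvex f → f A ≤ sSup (f '' K)}

/-- `⟨ν, f⟩` for a finitely supported measure `ν = ∑ ν(A) δ_A` -/
noncomputable def pair {n m : ℕ} (ν : Mat n m →₀ ℝ) (f : Mat n m → ℝ) : ℝ :=
  ν.sum fun A w => w * f A

/-- the barycenter -/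
noncomputable def bary {n m : ℕ} (ν : Mat n m →₀ ℝ) : Mat n m :=
  ν.sum fun A w => w • A

/-- `ν'` arises from `ν` by replacing the mass `l` at `B` by `l (μ δ_C + (1 - μ) δ_D)`,
where `B = μ C + (1 - μ) D`, `0 < μ < 1` and `C - D` has rank one -/
def SplitAt {n m : ℕ} (ν ν' : Mat n m →₀ ℝ) (B C D : Mat n m) (l μ : ℝ) : Prop :=
  0 < μ ∧ μ < 1 ∧ B = μ • C + (1 - μ) • D ∧ (C - D).rank = 1 ∧
  ν' = ν - Finsupp.single B l + Finsupp.single C (l * μ) + Finsupp.single D (l * (1 - μ))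

/-- elementary splitting of a whole atom -/
def Splits {n m : ℕ} (ν ν' : Mat n m →₀ ℝ) : Prop :=
  ∃ B C D : Mat n m, ∃ μ : ℝ, 0 < ν B ∧ SplitAt ν ν' B C D (ν B) μ

/-- elementary splitting of a part of the mass of an atom (the same point may be listed
several times among the atoms) -/
def SplitsPart {n m : ℕ} (ν ν' : Mat n m →₀ ℝ) : Prop :=
  ∃ B C D : Mat n m, ∃ l μ : ℝ, 0 < l ∧ l ≤ ν B ∧ SplitAt ν ν' B C D l μ

/-- laminates of finite order, for the splitting relation `S` -/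
def Laminate {n m : ℕ} (S : (Mat n m →₀ ℝ) → (Mat n m →₀ ℝ) → Prop) (ν : Mat n m →₀ ℝ) : Prop :=
  ∃ A : Mat n m, Relation.ReflTransGen S (Finsupp.single A 1) ν

/-- consecutive sequences -/
def Consecutive {n m : ℕ} (S : (Mat n m →₀ ℝ) → (Mat n m →₀ ℝ) → Prop)
    (ν : ℕ → Mat n m →₀ ℝ) : Prop :=
  (∀ i, Laminate S (ν i)) ∧ ∀ i, S (ν i) (ν (i + 1))

/-- the set `L_c(K)` -/
def Lc {n m : ℕ} (S : (Mat n m →₀ ℝ) → (Mat n m →₀ ℝ) → Prop) (K : Set (Mat n m)) :
    Set (Mat n m) :=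
  {A | ∃ ν : ℕ → Mat n m →₀ ℝ, Consecutive S ν ∧ (∀ i, bary (ν i) = A) ∧
    ⨅ i, pair (ν i) (fun X => dK K X ^ 2) = 0}

/-! ## Rank one -/

theorem minors {n m : ℕ} (V : Mat n m) (h : V.rank = 1) (i i' : Fin n) (j j' : Fin m) :
    V i j * V i' j' = V i j' * V i' j := by
  have h1 : Module.finrank ℝ (LinearMap.range V.mulVecLin) ≤ 1 := by
    have : Module.finrank ℝ (LinearMap.range V.mulVecLin) = 1 := h
    omega
  rw [finrank_le_one_iff] at h1
  obtain ⟨v, hv⟩ := h1
  have key : ∀ j : Fin m, ∃ c : ℝ, ∀ i, V i j = c * (v : Fin n → ℝ) i := by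
    intro j
    obtain ⟨c, hc⟩ := hv ⟨V.mulVecLin (Pi.single j 1), LinearMap.mem_range_self _ _⟩
    refine ⟨c, fun i => ?_⟩
    have := congrArg (fun w : LinearMap.range V.mulVecLin => (w : Fin n → ℝ) i) hc
    simp at this
    rw [← this]
  obtain ⟨c, hc⟩ := key j
  obtain ⟨c', hc'⟩ := key j'
  rw [hc, hc', hc, hc']; ring

theorem rank_smul_one {n m : ℕ} (V : Mat n m) (c : ℝ) (hc : c ≠ 0) : (c • V).rank = V.rank := by
  have : Function.Injective (fun x : ℝ => c * x) := mul_right_injective₀ hc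
  unfold Matrix.rank
  have e : (c • V).mulVecLin = c • V.mulVecLin := by
    ext x i
    simp
  rw [e, LinearMap.range_smul _ _ hc]

/-! ## The hull -/

theorem seg {n m : ℕ} {f : Mat n m → ℝ} (hf : RankOneConvex f) (A B : Mat n m) (h : B.rank = 1)
    (s t a b : ℝ) (ha : 0 ≤ a) (hb : 0 ≤ b) (hab : a + b = 1) :
    f (A + (a * s + b * t) • B) ≤ a * f (A + s • B) + b * f (A + t • B) := by
  have := (hf A B h).2 (Set.mem_univ s) (Set.mem_univ t) ha hb hab
  simpa using this

theorem incr {n m : ℕ} {f : Mat n m → ℝ} (hf : RankOneConvex f) :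
    ∀ l : List (Mat n m), (∀ T ∈ l, T.rank = 1) → ∀ R : Mat n m, ∃ C : ℝ, 0 ≤ C ∧
      ∀ ρ : ℝ, 0 ≤ ρ → ρ ≤ 1 → f (R + ρ • l.sum) ≤ f R + C * ρ := by
  intro l
  induction l with
  | nil => 
    intro _ R
    exact ⟨0, le_refl _, fun ρ _ _ => by simp⟩
  | cons T l ih =>
    intro hl R
    have hT : T.rank = 1 := hl T (by simp)
    have hl' : ∀ T ∈ l, T.rank = 1 := fun T' hT' => hl T' (by simp [hT'])
    obtain ⟨C, hC, h1⟩ := ih hl' R
    obtain ⟨C', hC', h2⟩ := ih hl' (R + T)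
    refine ⟨C + |f (R + T) - f R| + C', by positivity, fun ρ h0 h1' => ?_⟩
    have e := seg hf (R + ρ • l.sum) T hT 0 1 (1 - ρ) ρ (by linarith) h0 (by ring)
    have e1 : R + ρ • (T :: l).sum = R + ρ • l.sum + ((1 - ρ) * 0 + ρ * 1) • T := by
      simp [List.sum_cons, smul_add]; abel
    have e2 : R + ρ • l.sum + (1:ℝ) • T = (R + T) + ρ • l.sum := by
      simp; abel
    rw [e1]
    rw [e2] at e
    have e3 : R + ρ • l.sum + (0:ℝ) • T = R + ρ • l.sum := by simp
    rw [e3] at e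
    have a1 := h1 ρ h0 h1'
    have a2 := h2 ρ h0 h1'
    have a3 : f (R + T) - f R ≤ |f (R + T) - f R| := le_abs_self _
    nlinarith [mul_le_mul_of_nonneg_left a1 (by linarith : 0 ≤ 1 - ρ),
      mul_le_mul_of_nonneg_left a2 h0, mul_le_mul_of_nonneg_left a3 h0,
      mul_nonneg hC (mul_nonneg h0 h0), mul_nonneg (mul_nonneg hC' h0) (by linarith : 0 ≤ 1 - ρ)]

theorem star {n m : ℕ} {f : Mat n m → ℝ} (hf : RankOneConvex f) (N : ℕ) (hN : 0 < N)
    (R : ℕ → Mat n m) (hR : ∀ i, (R i).rank = 1) (hsum : ∑ i ∈ range N, R i = 0)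
    (w0 : ℝ) (hw : ∀ i < N, f (R i) ≤ w0) : f 0 ≤ w0 := by
  -- a common constant
  have hC : ∃ C : ℝ, 0 ≤ C ∧ ∀ j < N, ∀ ρ : ℝ, 0 ≤ ρ → ρ ≤ 1 →
      f (R j + ρ • (-∑ i ∈ range j, R i)) ≤ w0 + C * ρ := by
    have h1 : ∀ j : ℕ, ∃ C : ℝ, 0 ≤ C ∧ ∀ ρ : ℝ, 0 ≤ ρ → ρ ≤ 1 →
        f (R j + ρ • (-∑ i ∈ range j, R i)) ≤ f (R j) + C * ρ := by
      intro j
      obtain ⟨C, hC, h⟩ := incr hf ((List.range j).map fun i => -R i) (by
        intro T hT
        rw [List.mem_map] at hT
        obtain ⟨i, _, rfl⟩ := hT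
        have := rank_smul_one (R i) (-1) (by norm_num)
        rw [neg_one_smul] at this
        rw [this]; exact hR i) (R j)
      refine ⟨C, hC, fun ρ h0 h1 => ?_⟩
      have e : ((List.range j).map fun i => -R i).sum = -∑ i ∈ range j, R i := by
        rw [← Finset.sum_neg_distrib]
        rfl
      rw [e] at h
      exact h ρ h0 h1
    choose C hC h using h1
    refine ⟨∑ i ∈ range N, C i, Finset.sum_nonneg fun i _ => hC i, fun j hj ρ h0 h1 => ?_⟩
    have a1 := h j ρ h0 h1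
    have a2 := hw j hj
    have a3 : C j ≤ ∑ i ∈ range N, C i :=
      Finset.single_le_sum (fun i _ => hC i) (mem_range.2 hj)
    nlinarith [mul_le_mul_of_nonneg_right a3 h0]
  obtain ⟨C, hC0, hC⟩ := hC
  -- the chain
  have step : ∀ ρ : ℝ, 0 < ρ → ρ ≤ 1 → f 0 ≤ w0 + C * ρ := by
    intro ρ h0 h1
    have chain : ∀ j ≤ N, f 0 - (w0 + C * ρ) ≤
        (1 / (1 + ρ)) ^ j * (f (ρ • (-∑ i ∈ range j, R i)) - (w0 + C * ρ)) := by
      intro j
      induction j with
      | zero => intro _; simp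
      | succ j ih =>
        intro hj
        have i1 := ih (by omega)
        have q0 : 0 < 1 / (1 + ρ) := by positivity
        have e := seg hf (ρ • (-∑ i ∈ range j, R i)) (R j) (hR j) (-ρ) 1 (1 / (1 + ρ)) (ρ / (1 + ρ))
          q0.le (by positivity) (by field_simp)
        have z : 1 / (1 + ρ) * (-ρ) + ρ / (1 + ρ) * 1 = 0 := by field_simp; ring
        rw [z, zero_smul, add_zero] at e
        have e1 : ρ • (-∑ i ∈ range j, R i) + (-ρ) • R j = ρ • (-∑ i ∈ range (j + 1), R i) := by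
          rw [Finset.sum_range_succ]
          simp only [smul_neg, smul_add, neg_smul, neg_add]
        have e2 : ρ • (-∑ i ∈ range j, R i) + (1:ℝ) • R j = R j + ρ • (-∑ i ∈ range j, R i) := by
          rw [one_smul, add_comm]
        rw [e1, e2] at e
        have e3 := hC j (by omega) ρ h0.le h1
        have e4 : ρ / (1 + ρ) = 1 - 1 / (1 + ρ) := by field_simp; ring
        rw [e4] at e
        have e5 : (0:ℝ) ≤ 1 - 1 / (1 + ρ) := by rw [← e4]; positivity
        have e6 : f (ρ • (-∑ i ∈ range j, R i)) - (w0 + C * ρ) ≤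
            1 / (1 + ρ) * (f (ρ • (-∑ i ∈ range (j + 1), R i)) - (w0 + C * ρ)) := by
          nlinarith [mul_le_mul_of_nonneg_left e3 e5]
        calc f 0 - (w0 + C * ρ) ≤ _ := i1
          _ ≤ (1 / (1 + ρ)) ^ j * (1 / (1 + ρ) *
              (f (ρ • (-∑ i ∈ range (j + 1), R i)) - (w0 + C * ρ))) :=
            mul_le_mul_of_nonneg_left e6 (by positivity)
          _ = _ := by rw [pow_succ]; ring
    have c := chain N le_rfl
    rw [hsum] at c
    simp only [neg_zero, smul_zero] at c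
    by_contra hcon
    have hcon' : 0 < f 0 - (w0 + C * ρ) := by linarith [not_le.1 hcon]
    have q1 : (1 / (1 + ρ)) ^ N < 1 := by
      apply pow_lt_one₀ (by positivity)
      · rw [div_lt_one (by positivity)]; linarith
      · omega
    nlinarith
  by_contra hcon
  have hcon' : w0 < f 0 := not_le.1 hcon
  have s1 := step (min 1 ((f 0 - w0) / (2 * (C + 1)))) (by
    apply lt_min one_pos
    apply div_pos <;> linarith) (min_le_left _ _)
  have s2 : min 1 ((f 0 - w0) / (2 * (C + 1))) ≤ (f 0 - w0) / (2 * (C + 1)) := min_le_right _ _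
  have s3 : C * min 1 ((f 0 - w0) / (2 * (C + 1))) ≤ C * ((f 0 - w0) / (2 * (C + 1))) :=
    mul_le_mul_of_nonneg_left s2 hC0
  have s4 : C * ((f 0 - w0) / (2 * (C + 1))) ≤ (f 0 - w0) / 2 := by
    rw [mul_div_assoc', div_le_div_iff₀ (by linarith) (by norm_num)]
    nlinarith
  linarith

/-! ## Pairings along splittings -/

theorem pair_add {n m : ℕ} (ν ν' : Mat n m →₀ ℝ) (f : Mat n m → ℝ) :
    pair (ν + ν') f = pair ν f + pair ν' f :=
  Finsupp.sum_add_index' (fun _ => by simp) (fun _ _ _ => by ring)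

theorem pair_single {n m : ℕ} (A : Mat n m) (w : ℝ) (f : Mat n m → ℝ) :
    pair (Finsupp.single A w) f = w * f A :=
  Finsupp.sum_single_index (by simp)

theorem pair_sub {n m : ℕ} (ν ν' : Mat n m →₀ ℝ) (f : Mat n m → ℝ) :
    pair (ν - ν') f = pair ν f - pair ν' f :=
  Finsupp.sum_sub_index (fun _ _ _ => by ring)

theorem bary_add {n m : ℕ} (ν ν' : Mat n m →₀ ℝ) :
    bary (ν + ν') = bary ν + bary ν' :=
  Finsupp.sum_add_index' (fun _ => by simp) (fun _ _ _ => by rw [add_smul])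

theorem bary_single {n m : ℕ} (A : Mat n m) (w : ℝ) :
    bary (Finsupp.single A w) = w • A :=
  Finsupp.sum_single_index (by simp)

theorem bary_sub {n m : ℕ} (ν ν' : Mat n m →₀ ℝ) :
    bary (ν - ν') = bary ν - bary ν' :=
  Finsupp.sum_sub_index (fun _ _ _ => by rw [sub_smul])

theorem pair_nonneg {n m : ℕ} (ν : Mat n m →₀ ℝ) (f : Mat n m → ℝ) (h : ∀ A, 0 ≤ ν A)
    (hf : ∀ A, 0 ≤ f A) : 0 ≤ pair ν f :=
  Finset.sum_nonneg fun A _ => mul_nonneg (h A) (hf A)

theorem pair_mono {n m : ℕ} (ν : Mat n m →₀ ℝ) (f g : Mat n m → ℝ) (h : ∀ A, 0 ≤ ν A)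
    (hf : ∀ A, f A ≤ g A) : pair ν f ≤ pair ν g :=
  Finset.sum_le_sum fun A _ => mul_le_mul_of_nonneg_left (hf A) (h A)

/-- data of a splitting -/
theorem split_data {n m : ℕ} {ν ν' : Mat n m →₀ ℝ} (h : SplitsPart ν ν') (h0 : ∀ A, 0 ≤ ν A) :
    (∀ A, 0 ≤ ν' A) ∧ bary ν' = bary ν ∧ pair ν' (fun _ => 1) = pair ν (fun _ => 1) ∧
    ∃ B C D : Mat n m, ∃ l μ : ℝ, 0 < l ∧ l ≤ ν B ∧ 0 < μ ∧ μ < 1 ∧ B = μ • C + (1 - μ) • D ∧
      (C - D).rank = 1 ∧ (∀ A, 0 ≤ (ν - Finsupp.single B l) A) ∧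
      (∀ f, pair ν' f = pair (ν - Finsupp.single B l) f + l * μ * f C + l * (1 - μ) * f D) ∧
      (∀ f, pair ν f = pair (ν - Finsupp.single B l) f + l * f B) := by
  classical
  obtain ⟨B, C, D, l, μ, hl, hlB, m0, m1, hB, hr, rfl⟩ := h
  have hn : ∀ A, 0 ≤ (ν - Finsupp.single B l) A := by
    intro A
    rw [Finsupp.sub_apply, Finsupp.single_apply]
    split_ifs with h
    · subst h; linarith
    · simpa using h0 A
  have hp : ∀ f, pair (ν - Finsupp.single B l + Finsupp.single C (l * μ) +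
      Finsupp.single D (l * (1 - μ))) f =
      pair (ν - Finsupp.single B l) f + l * μ * f C + l * (1 - μ) * f D := by
    intro f
    rw [pair_add, pair_add, pair_single, pair_single]
  have hq : ∀ f, pair ν f = pair (ν - Finsupp.single B l) f + l * f B := by
    intro f
    rw [pair_sub, pair_single]; ring
  refine ⟨?_, ?_, ?_, B, C, D, l, μ, hl, hlB, m0, m1, hB, hr, hn, hp, hq⟩
  · intro A
    rw [Finsupp.add_apply, Finsupp.add_apply]
    have a1 : 0 ≤ (Finsupp.single C (l * μ)) A := by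
      rw [Finsupp.single_apply]; split_ifs <;> [positivity; exact le_refl _]
    have a2 : 0 ≤ (Finsupp.single D (l * (1 - μ))) A := by
      rw [Finsupp.single_apply]; split_ifs
      · exact mul_nonneg hl.le (by linarith)
      · exact le_refl _
    linarith [hn A]
  · rw [bary_add, bary_add, bary_sub, bary_single, bary_single, bary_single, hB, smul_add,
      smul_smul, smul_smul]
    abel
  · rw [hp, hq]; ring

/-! ## The six matrices -/

/-- five tiles of a pinwheel tiling of the `3 × 3` grid, and minus the all-ones matrix -/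
noncomputable def R : Fin 6 → Mat 3 3
  | 0 => !![1, 1, 0; 0, 0, 0; 0, 0, 0]
  | 1 => !![0, 0, 1; 0, 0, 1; 0, 0, 0]
  | 2 => !![0, 0, 0; 0, 0, 0; 0, 1, 1]
  | 3 => !![0, 0, 0; 1, 0, 0; 1, 0, 0]
  | 4 => !![0, 0, 0; 0, 1, 0; 0, 0, 0]
  | 5 => !![-1, -1, -1; -1, -1, -1; -1, -1, -1]

/-- the values on the tiles -/
def phi (i : Fin 6) (M : Mat 3 3) : ℝ :=
  ![M 0 0, M 0 2, M 2 2, M 2 0, M 1 1, 0] i

/-- the square distance, up to a constant, to the span of the six matrices -/
def gg (M : Mat 3 3) : ℝ :=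
  (M 0 0 - M 0 1) ^ 2 + (M 0 2 - M 1 2) ^ 2 + (M 2 1 - M 2 2) ^ 2 + (M 1 0 - M 2 0) ^ 2

/-- the separating functions -/
noncomputable def ff (i : Fin 6) (M : Mat 3 3) : ℝ :=
  max (phi (i + 1) M - phi i M) 0 * max (phi (i + 2) M - phi i M) 0

theorem phi_add (i : Fin 6) (A B : Mat 3 3) : phi i (A + B) = phi i A + phi i B := by
  fin_cases i <;> simp [phi]

theorem phi_sub (i : Fin 6) (A B : Mat 3 3) : phi i (A - B) = phi i A - phi i B := by
  fin_cases i <;> simp [phi]

theorem phi_smul (i : Fin 6) (c : ℝ) (B : Mat 3 3) : phi i (c • B) = c * phi i B := by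
  fin_cases i <;> simp [phi]

theorem phi_R (j l : Fin 6) :
    phi j (R l) = (if j = l then 1 else 0) - (if l = 5 then 1 else 0) := by
  fin_cases j <;> fin_cases l <;> simp [phi, R]

theorem gg_nonneg (M : Mat 3 3) : 0 ≤ gg M := by unfold gg; positivity

theorem gg_conv (C D : Mat 3 3) (μ : ℝ) (h0 : 0 < μ) (h1 : μ < 1) :
    gg (μ • C + (1 - μ) • D) ≤ μ * gg C + (1 - μ) * gg D := by
  have key : ∀ a b c d : ℝ, ((μ * a + (1 - μ) * b) - (μ * c + (1 - μ) * d)) ^ 2 ≤
      μ * (a - c) ^ 2 + (1 - μ) * (b - d) ^ 2 := by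
    intro a b c d
    nlinarith [mul_nonneg (mul_nonneg h0.le (by linarith : 0 ≤ 1 - μ))
      (sq_nonneg ((a - c) - (b - d)))]
  unfold gg
  simp only [Matrix.add_apply, Matrix.smul_apply, smul_eq_mul]
  have k1 := key (C 0 0) (D 0 0) (C 0 1) (D 0 1)
  have k2 := key (C 0 2) (D 0 2) (C 1 2) (D 1 2)
  have k3 := key (C 2 1) (D 2 1) (C 2 2) (D 2 2)
  have k4 := key (C 1 0) (D 1 0) (C 2 0) (D 2 0)
  linarith

theorem gg_zero {M : Mat 3 3} (h : gg M = 0) :
    M 0 1 = M 0 0 ∧ M 1 2 = M 0 2 ∧ M 2 1 = M 2 2 ∧ M 1 0 = M 2 0 := by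
  unfold gg at h
  have a1 := sq_nonneg (M 0 0 - M 0 1)
  have a2 := sq_nonneg (M 0 2 - M 1 2)
  have a3 := sq_nonneg (M 2 1 - M 2 2)
  have a4 := sq_nonneg (M 1 0 - M 2 0)
  have b1 : (M 0 0 - M 0 1) ^ 2 = 0 := by linarith
  have b2 : (M 0 2 - M 1 2) ^ 2 = 0 := by linarith
  have b3 : (M 2 1 - M 2 2) ^ 2 = 0 := by linarith
  have b4 : (M 1 0 - M 2 0) ^ 2 = 0 := by linarith
  have c1 := pow_eq_zero_iff (two_ne_zero) |>.1 b1
  have c2 := pow_eq_zero_iff (two_ne_zero) |>.1 b2
  have c3 := pow_eq_zero_iff (two_ne_zero) |>.1 b3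
  have c4 := pow_eq_zero_iff (two_ne_zero) |>.1 b4
  exact ⟨by linarith, by linarith, by linarith, by linarith⟩

theorem gg_sub_zero {C D : Mat 3 3} (hC : gg C = 0) (hD : gg D = 0) : gg (C - D) = 0 := by
  obtain ⟨c1, c2, c3, c4⟩ := gg_zero hC
  obtain ⟨d1, d2, d3, d4⟩ := gg_zero hD
  unfold gg
  simp only [Matrix.sub_apply]
  rw [c1, c2, c3, c4, d1, d2, d3, d4]; ring

theorem rank_one_in_span {V : Mat 3 3} (hg : gg V = 0) (hr : V.rank = 1) :
    ∃ (c : ℝ) (k : Fin 6), V = c • R k := by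
  obtain ⟨e1, e2, e3, e4⟩ := gg_zero hg
  have m1 := minors V hr 0 1 0 1
  have m2 := minors V hr 0 1 0 2
  have m3 := minors V hr 0 1 1 2
  have m4 := minors V hr 0 2 0 1
  have m6 := minors V hr 0 2 1 2
  have m7 := minors V hr 1 2 0 1
  have m8 := minors V hr 1 2 0 2
  have m9 := minors V hr 1 2 1 2
  rw [e1, e4] at m1
  rw [e2, e4] at m2
  rw [e1, e2] at m3
  rw [e1, e3] at m4
  rw [e1, e3] at m6
  rw [e4, e3] at m7
  rw [e4, e2] at m8
  rw [e2, e3] at m9
  have hV : ∀ W : Mat 3 3, W 0 0 = V 0 0 → W 0 1 = V 0 0 → W 0 2 = V 0 2 → W 1 0 = V 2 0 →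
      W 1 1 = V 1 1 → W 1 2 = V 0 2 → W 2 0 = V 2 0 → W 2 1 = V 2 2 → W 2 2 = V 2 2 → V = W := by
    intro W w1 w2 w3 w4 w5 w6 w7 w8 w9
    ext i j
    fin_cases i <;> fin_cases j <;> simp <;> linarith
  clear hr hg e1 e2 e3 e4
  generalize V 0 0 = a at *
  generalize V 0 2 = b at *
  generalize V 2 2 = c at *
  generalize V 2 0 = d at *
  generalize V 1 1 = e at *
  by_cases a0 : a = 0
  · subst a0
    by_cases b0 : b = 0
    · subst b0
      by_cases c0 : c = 0
      · subst c0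
        by_cases d0 : d = 0
        · subst d0
          exact ⟨e, 4, hV _ (by simp [R]) (by simp [R]) (by simp [R]) (by simp [R]) (by simp [R])
            (by simp [R]) (by simp [R]) (by simp [R]) (by simp [R])⟩
        · have : e = 0 := by
            have : d * e = 0 := by linarith
            rcases mul_eq_zero.1 this with h | h
            · exact absurd h d0
            · exact h
          subst this
          exact ⟨d, 3, hV _ (by simp [R]) (by simp [R]) (by simp [R]) (by simp [R]) (by simp [R])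
            (by simp [R]) (by simp [R]) (by simp [R]) (by simp [R])⟩
      · have h1 : d = 0 := by
          have : c * d = 0 := by linarith
          rcases mul_eq_zero.1 this with h | h
          · exact absurd h c0
          · exact h
        have h2 : e = 0 := by
          have : c * e = 0 := by linarith
          rcases mul_eq_zero.1 this with h | h
          · exact absurd h c0
          · exact h
        subst h1
        subst h2
        exact ⟨c, 2, hV _ (by simp [R]) (by simp [R]) (by simp [R]) (by simp [R]) (by simp [R])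
            (by simp [R]) (by simp [R]) (by simp [R]) (by simp [R])⟩
    · have h1 : d = 0 := by
        have : b * d = 0 := by linarith
        rcases mul_eq_zero.1 this with h | h
        · exact absurd h b0
        · exact h
      have h2 : e = 0 := by
        have : b * e = 0 := by linarith
        rcases mul_eq_zero.1 this with h | h
        · exact absurd h b0
        · exact h
      have h3 : c = 0 := by
        have : b * c = 0 := by linarith
        rcases mul_eq_zero.1 this with h | h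
        · exact absurd h b0
        · exact h
      subst h1
      subst h2
      subst h3
      exact ⟨b, 1, hV _ (by simp [R]) (by simp [R]) (by simp [R]) (by simp [R]) (by simp [R])
            (by simp [R]) (by simp [R]) (by simp [R]) (by simp [R])⟩
  · have h1 : e = d := mul_left_cancel₀ a0 (by linarith)
    have h2 : c = d := mul_left_cancel₀ a0 (by linarith)
    by_cases d0 : d = 0
    · subst d0
      subst h1
      subst h2
      have h3 : b = 0 := mul_left_cancel₀ a0 (by linarith)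
      subst h3
      exact ⟨a, 0, hV _ (by simp [R]) (by simp [R]) (by simp [R]) (by simp [R]) (by simp [R])
            (by simp [R]) (by simp [R]) (by simp [R]) (by simp [R])⟩
    · have h3 : b = d := by
        apply mul_left_cancel₀ d0
        rw [h2] at m8
        linarith
      have h4 : a = d := by
        apply mul_left_cancel₀ d0
        rw [h3] at m2
        linarith
      exact ⟨-d, 5, hV _ (by simp [R, h4]) (by simp [R, h4]) (by simp [R, h3]) (by simp [R])
        (by simp [R, h1]) (by simp [R, h3]) (by simp [R]) (by simp [R, h2]) (by simp [R, h2])⟩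

/-- the finite set -/
noncomputable def KK : Set (Mat 3 3) := Set.range R

theorem ff_nonneg (i : Fin 6) (M : Mat 3 3) : 0 ≤ ff i M :=
  mul_nonneg (le_max_right _ _) (le_max_right _ _)

theorem max_conv (μ u v : ℝ) (h0 : 0 < μ) (h1 : μ < 1) :
    max (μ * u + (1 - μ) * v) 0 ≤ μ * max u 0 + (1 - μ) * max v 0 := by
  have h1' : 0 ≤ 1 - μ := by linarith
  apply max_le
  · exact add_le_add (mul_le_mul_of_nonneg_left (le_max_left _ _) h0.le)
      (mul_le_mul_of_nonneg_left (le_max_left _ _) h1')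
  · exact add_nonneg (mul_nonneg h0.le (le_max_right _ _)) (mul_nonneg h1' (le_max_right _ _))

theorem prod_conv (μ u1 u2 v1 v2 : ℝ) (h0 : 0 < μ) (h1 : μ < 1)
    (h : 0 ≤ (u1 - u2) * (v1 - v2)) :
    max (μ * u1 + (1 - μ) * u2) 0 * max (μ * v1 + (1 - μ) * v2) 0 ≤
      μ * (max u1 0 * max v1 0) + (1 - μ) * (max u2 0 * max v2 0) := by
  have h1' : 0 ≤ 1 - μ := by linarith
  have k1 := max_conv μ u1 u2 h0 h1
  have k2 := max_conv μ v1 v2 h0 h1
  have p1 : 0 ≤ max (μ * v1 + (1 - μ) * v2) 0 := le_max_right _ _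
  have p2 : 0 ≤ μ * max u1 0 + (1 - μ) * max u2 0 :=
    add_nonneg (mul_nonneg h0.le (le_max_right _ _)) (mul_nonneg h1' (le_max_right _ _))
  have k3 := mul_le_mul k1 k2 p1 p2
  refine k3.trans ?_
  have key : 0 ≤ (max u1 0 - max u2 0) * (max v1 0 - max v2 0) := by
    rcases mul_nonneg_iff.1 h with ⟨a, b⟩ | ⟨a, b⟩
    · exact mul_nonneg (sub_nonneg.2 (max_le_max_right _ (sub_nonneg.1 a)))
        (sub_nonneg.2 (max_le_max_right _ (sub_nonneg.1 b)))
    · exact mul_nonneg_of_nonpos_of_nonpos (sub_nonpos.2 (max_le_max_right _ (sub_nonpos.1 a)))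
        (sub_nonpos.2 (max_le_max_right _ (sub_nonpos.1 b)))
  nlinarith [mul_nonneg (mul_nonneg h0.le h1') key]

theorem ff_conv (i : Fin 6) {C D : Mat 3 3} (hC : gg C = 0) (hD : gg D = 0)
    (hr : (C - D).rank = 1) (μ : ℝ) (h0 : 0 < μ) (h1 : μ < 1) :
    ff i (μ • C + (1 - μ) • D) ≤ μ * ff i C + (1 - μ) * ff i D := by
  obtain ⟨c, k, hk⟩ := rank_one_in_span (gg_sub_zero hC hD) hr
  have hph : ∀ j : Fin 6, phi j C - phi j D = c * phi j (R k) := by
    intro j
    rw [← phi_sub, hk, phi_smul]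
  unfold ff
  have e1 : ∀ j, phi j (μ • C + (1 - μ) • D) = μ * phi j C + (1 - μ) * phi j D := by
    intro j
    rw [phi_add, phi_smul, phi_smul]
  have e2 : ∀ j, phi j (μ • C + (1 - μ) • D) - phi i (μ • C + (1 - μ) • D) =
      μ * (phi j C - phi i C) + (1 - μ) * (phi j D - phi i D) := by
    intro j; rw [e1, e1]; ring
  rw [e2, e2]
  apply prod_conv _ _ _ _ _ h0 h1
  have e3 : (phi (i + 1) C - phi i C - (phi (i + 1) D - phi i D)) *
      (phi (i + 2) C - phi i C - (phi (i + 2) D - phi i D)) =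
      c ^ 2 * ((phi (i + 1) (R k) - phi i (R k)) * (phi (i + 2) (R k) - phi i (R k))) := by
    have a1 := hph (i + 1)
    have a2 := hph (i + 2)
    have a3 := hph i
    have b1 : phi (i + 1) C - phi i C - (phi (i + 1) D - phi i D) =
      c * phi (i + 1) (R k) - c * phi i (R k) := by linarith
    have b2 : phi (i + 2) C - phi i C - (phi (i + 2) D - phi i D) =
      c * phi (i + 2) (R k) - c * phi i (R k) := by linarith
    rw [b1, b2]; ring
  rw [e3]
  apply mul_nonneg (sq_nonneg _)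
  rw [phi_R, phi_R, phi_R]
  fin_cases i <;> fin_cases k <;> norm_num [Fin.ext_iff, Fin.val_add]

theorem ff_pos (i : Fin 6) (s : ℝ) (hs : 0 < s) : 0 < ff i ((-s) • R i) := by
  unfold ff
  rw [phi_smul, phi_smul, phi_smul]
  have e1 : -s * phi (i + 1) (R i) - -s * phi i (R i) = s := by
    rw [phi_R, phi_R]
    fin_cases i <;> norm_num [Fin.ext_iff, Fin.val_add]
  have e2 : -s * phi (i + 2) (R i) - -s * phi i (R i) = s := by
    rw [phi_R, phi_R]
    fin_cases i <;> norm_num [Fin.ext_iff, Fin.val_add]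
  rw [e1, e2, max_eq_left hs.le]
  positivity

theorem uR (i k : Fin 6) : (phi (i + 1) (R k) - phi i (R k) ≤ 0 ∧
    phi (i + 2) (R k) - phi i (R k) ≤ 1) ∨ (phi (i + 2) (R k) - phi i (R k) ≤ 0 ∧
    phi (i + 1) (R k) - phi i (R k) ≤ 1) := by
  rw [phi_R, phi_R, phi_R]
  fin_cases i <;> fin_cases k <;> norm_num [Fin.ext_iff, Fin.val_add]

/-! ## The Frobenius norm and the distance -/

theorem frob_sq {n m : ℕ} (A : Mat n m) : frob A ^ 2 = ∑ i, ∑ j, A i j ^ 2 :=
  Real.sq_sqrt (Finset.sum_nonneg fun _ _ => Finset.sum_nonneg fun _ _ => sq_nonneg _)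

theorem frob_nonneg {n m : ℕ} (A : Mat n m) : 0 ≤ frob A := Real.sqrt_nonneg _

theorem entry_le {n m : ℕ} (A : Mat n m) (i : Fin n) (j : Fin m) : |A i j| ≤ frob A := by
  refine abs_le_of_sq_le_sq ?_ (frob_nonneg A)
  rw [frob_sq]
  calc A i j ^ 2 ≤ ∑ j, A i j ^ 2 :=
        Finset.single_le_sum (f := fun j => A i j ^ 2) (fun _ _ => sq_nonneg _) (mem_univ j)
    _ ≤ _ := Finset.single_le_sum (f := fun i => ∑ j, A i j ^ 2)
        (fun _ _ => Finset.sum_nonneg fun _ _ => sq_nonneg _) (mem_univ i)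

theorem phi_le (i : Fin 6) (A : Mat 3 3) : |phi i A| ≤ frob A := by
  fin_cases i <;> simp [phi] <;> first | exact entry_le A _ _ | exact frob_nonneg A

theorem gg_le (A : Mat 3 3) : gg A ≤ 2 * frob A ^ 2 := by
  rw [frob_sq]
  unfold gg
  simp only [Fin.sum_univ_three]
  nlinarith [sq_nonneg (A 0 0 + A 0 1), sq_nonneg (A 0 2 + A 1 2), sq_nonneg (A 2 1 + A 2 2),
    sq_nonneg (A 1 0 + A 2 0), sq_nonneg (A 1 1)]

theorem dK_attained (M : Mat 3 3) : ∃ l, dK KK M = frob (M - R l) := by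
  have h1 : ((fun B => frob (M - B)) '' KK).Nonempty := ⟨_, R 0, ⟨0, rfl⟩, rfl⟩
  have h2 : ((fun B => frob (M - B)) '' KK).Finite := (Set.finite_range R).image _
  obtain ⟨B, ⟨l, rfl⟩, hB⟩ := h1.csInf_mem h2
  exact ⟨l, hB.symm⟩

theorem dK_nonneg (M : Mat 3 3) : 0 ≤ dK KK M := by
  obtain ⟨l, hl⟩ := dK_attained M
  rw [hl]; exact frob_nonneg _

theorem gg_le_dK (M : Mat 3 3) : gg M ≤ 2 * dK KK M ^ 2 := by
  obtain ⟨l, hl⟩ := dK_attained M
  rw [hl]
  refine le_trans (le_of_eq ?_) (gg_le (M - R l))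
  unfold gg
  simp only [Matrix.sub_apply]
  fin_cases l <;> simp [R]

theorem ff_le_dK (i : Fin 6) (M : Mat 3 3) : ff i M ≤ 2 * dK KK M + 4 * dK KK M ^ 2 := by
  obtain ⟨l, hl⟩ := dK_attained M
  have hd := frob_nonneg (M - R l)
  rw [← hl] at hd
  have h1 : ∀ j, phi j M - phi i M ≤ phi j (R l) - phi i (R l) + 2 * dK KK M := by
    intro j
    have a1 := (abs_le.1 (phi_le j (M - R l))).2
    have a2 := (abs_le.1 (phi_le i (M - R l))).1
    rw [← hl, phi_sub] at a1 a2
    linarith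
  have m1 := h1 (i + 1)
  have m2 := h1 (i + 2)
  unfold ff
  rcases uR i l with ⟨a, b⟩ | ⟨a, b⟩
  · have k1 : max (phi (i + 1) M - phi i M) 0 ≤ 2 * dK KK M := max_le (by linarith) (by linarith)
    have k2 : max (phi (i + 2) M - phi i M) 0 ≤ 1 + 2 * dK KK M :=
      max_le (by linarith) (by linarith)
    have := mul_le_mul k1 k2 (le_max_right _ _) (by linarith)
    nlinarith
  · have k1 : max (phi (i + 1) M - phi i M) 0 ≤ 1 + 2 * dK KK M :=
      max_le (by linarith) (by linarith)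
    have k2 : max (phi (i + 2) M - phi i M) 0 ≤ 2 * dK KK M :=
      max_le (by linarith) (by linarith)
    have := mul_le_mul k1 k2 (le_max_right _ _) (by linarith)
    nlinarith

theorem dK_zero_pos : 0 < dK KK 0 := by
  obtain ⟨l, hl⟩ := dK_attained 0
  rw [hl]
  have : ∃ i j, |((0 : Mat 3 3) - R l) i j| = 1 := by
    fin_cases l
    · exact ⟨0, 0, by simp [R]⟩
    · exact ⟨0, 2, by simp [R]⟩
    · exact ⟨2, 2, by simp [R]⟩
    · exact ⟨2, 0, by simp [R]⟩
    · exact ⟨1, 1, by simp [R]⟩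
    · exact ⟨0, 0, by simp [R]⟩
  obtain ⟨i, j, h⟩ := this
  have := entry_le ((0 : Mat 3 3) - R l) i j
  linarith

theorem rank_vec {n m : ℕ} (w : Fin n → ℝ) (v : Fin m → ℝ) (i : Fin n) (j : Fin m)
    (hw : w i ≠ 0) (hv : v j ≠ 0) : (Matrix.vecMulVec w v).rank = 1 := by
  have h1 : (Matrix.vecMulVec w v).rank ≤ 1 := Matrix.rank_vecMulVec_le w v
  have h2 : (Matrix.vecMulVec w v).rank ≠ 0 := by
    intro h
    have h3 : LinearMap.range (Matrix.vecMulVec w v).mulVecLin = ⊥ :=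
      Submodule.finrank_eq_zero.1 h
    have h4 : (Matrix.vecMulVec w v).mulVecLin (Pi.single j 1) = 0 := by
      have : (Matrix.vecMulVec w v).mulVecLin (Pi.single j 1) ∈
        LinearMap.range (Matrix.vecMulVec w v).mulVecLin := LinearMap.mem_range_self _ _
      rw [h3] at this
      simpa using this
    have h5 := congrFun h4 i
    simp [Matrix.vecMulVec_apply] at h5
    rcases h5 with h5 | h5
    · exact hw h5
    · exact hv h5
  omega

theorem rank_R (k : Fin 6) : (R k).rank = 1 := by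
  fin_cases k
  · have : R 0 = Matrix.vecMulVec ![1, 0, 0] ![1, 1, 0] := by
      ext i j; fin_cases i <;> fin_cases j <;> simp [R, Matrix.vecMulVec_apply]
    exact this ▸ rank_vec _ _ 0 0 (by simp) (by simp)
  · have : R 1 = Matrix.vecMulVec ![1, 1, 0] ![0, 0, 1] := by
      ext i j; fin_cases i <;> fin_cases j <;> simp [R, Matrix.vecMulVec_apply]
    exact this ▸ rank_vec _ _ 0 2 (by simp) (by simp)
  · have : R 2 = Matrix.vecMulVec ![0, 0, 1] ![0, 1, 1] := by
      ext i j; fin_cases i <;> fin_cases j <;> simp [R, Matrix.vecMulVec_apply]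
    exact this ▸ rank_vec _ _ 2 2 (by simp) (by simp)
  · have : R 3 = Matrix.vecMulVec ![0, 1, 1] ![1, 0, 0] := by
      ext i j; fin_cases i <;> fin_cases j <;> simp [R, Matrix.vecMulVec_apply]
    exact this ▸ rank_vec _ _ 2 0 (by simp) (by simp)
  · have : R 4 = Matrix.vecMulVec ![0, 1, 0] ![0, 1, 0] := by
      ext i j; fin_cases i <;> fin_cases j <;> simp [R, Matrix.vecMulVec_apply]
    exact this ▸ rank_vec _ _ 1 1 (by simp) (by simp)
  · have : R 5 = Matrix.vecMulVec ![-1, -1, -1] ![1, 1, 1] := by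
      ext i j; fin_cases i <;> fin_cases j <;> simp [R, Matrix.vecMulVec_apply]
    exact this ▸ rank_vec _ _ 0 0 (by simp) (by simp)

theorem zero_mem_hull : (0 : Mat 3 3) ∈ convRC KK := by
  intro f hf
  have hfin : (f '' KK).Finite := (Set.finite_range R).image f
  have hsum : ∑ i ∈ range 6, R (Fin.ofNat 6 i) = 0 := by
    have e : ∑ i ∈ range 6, R (Fin.ofNat 6 i) = R 0 + R 1 + R 2 + R 3 + R 4 + R 5 := by
      simp [Finset.sum_range_succ, Fin.ofNat]
    rw [e]
    ext i j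
    fin_cases i <;> fin_cases j <;> simp [R]
  exact star hf 6 (by norm_num) (fun i => R (Fin.ofNat 6 i)) (fun i => rank_R _) hsum _
    (fun i _ => le_csSup hfin.bddAbove ⟨_, ⟨Fin.ofNat 6 i, rfl⟩, rfl⟩)

/-! ## Consecutive laminates -/

theorem reach_basic {σ τ : Mat 3 3 →₀ ℝ} (h : Relation.ReflTransGen SplitsPart σ τ)
    (h0 : ∀ A, 0 ≤ σ A) : (∀ A, 0 ≤ τ A) ∧ bary τ = bary σ ∧
      pair τ (fun _ => 1) = pair σ (fun _ => 1) ∧ pair σ gg ≤ pair τ gg := by
  induction h with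
  | refl => exact ⟨h0, rfl, rfl, le_refl _⟩
  | tail h1 h2 ih =>
    obtain ⟨a1, a2, a3, a4⟩ := ih
    obtain ⟨b1, b2, b3, B, C, D, l, μ, hl, hlB, m0, m1, hB, hr, hn, hp, hq⟩ := split_data h2 a1
    refine ⟨b1, b2.trans a2, b3.trans a3, a4.trans ?_⟩
    rw [hp, hq, hB]
    have := mul_le_mul_of_nonneg_left (gg_conv C D μ m0 m1) hl.le
    nlinarith

theorem reach_ff (i : Fin 6) {σ τ : Mat 3 3 →₀ ℝ} (h : Relation.ReflTransGen SplitsPart σ τ)
    (h0 : ∀ A, 0 ≤ σ A) (hg : pair τ gg = 0) : pair σ (ff i) ≤ pair τ (ff i) := by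
  induction h with
  | refl => exact le_refl _
  | @tail τ' τ h1 h2 ih =>
    obtain ⟨a1, a2, a3, a4⟩ := reach_basic h1 h0
    obtain ⟨c1, c2, c3, c4⟩ := reach_basic (Relation.ReflTransGen.single h2) a1
    have g0 := pair_nonneg τ' gg a1 gg_nonneg
    have g1 : pair τ' gg = 0 := le_antisymm (c4.trans hg.le) g0
    refine (ih g1).trans ?_
    obtain ⟨b1, b2, b3, B, C, D, l, μ, hl, hlB, m0, m1, hB, hr, hn, hp, hq⟩ := split_data h2 a1
    rw [hp] at hg
    have g2 := pair_nonneg _ gg hn gg_nonneg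
    have g3 : 0 ≤ l * μ * gg C := mul_nonneg (mul_nonneg hl.le m0.le) (gg_nonneg C)
    have g4 : 0 ≤ l * (1 - μ) * gg D :=
      mul_nonneg (mul_nonneg hl.le (by linarith)) (gg_nonneg D)
    have g5 : l * μ * gg C = 0 := by linarith
    have g6 : l * (1 - μ) * gg D = 0 := by linarith
    have g7 : gg C = 0 := by
      rcases mul_eq_zero.1 g5 with h | h
      · exact absurd h (mul_pos hl m0).ne'
      · exact h
    have g8 : gg D = 0 := by
      rcases mul_eq_zero.1 g6 with h | h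
      · exact absurd h (mul_pos hl (by linarith)).ne'
      · exact h
    rw [hp, hq, hB]
    have := mul_le_mul_of_nonneg_left (ff_conv i g7 g8 hr μ m0 m1) hl.le
    nlinarith

theorem pair_lin {n m : ℕ} (ν : Mat n m →₀ ℝ) (a b : ℝ) (g : Mat n m → ℝ) :
    pair ν (fun X => a + b * g X) = a * pair ν (fun _ => 1) + b * pair ν g := by
  unfold pair Finsupp.sum
  rw [Finset.mul_sum, Finset.mul_sum, ← Finset.sum_add_distrib]
  apply Finset.sum_congr rfl
  intro x _; ring

theorem zero_not_mem : (0 : Mat 3 3) ∉ Lc SplitsPart KK := by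
  classical
  rintro ⟨ν, ⟨hlam, hstep⟩, hb, hinf⟩
  obtain ⟨A, hA⟩ := hlam 0
  have hs0 : ∀ (A X : Mat 3 3), 0 ≤ (Finsupp.single A (1:ℝ)) X := by
    intro A X
    rw [Finsupp.single_apply]; split_ifs <;> norm_num
  have hA0 : A = 0 := by
    have := (reach_basic hA (hs0 A)).2.1
    rw [hb 0, bary_single, one_smul] at this
    exact this.symm
  subst hA0
  have hreach : ∀ i j, i ≤ j → Relation.ReflTransGen SplitsPart (ν i) (ν j) := by
    intro i j hij
    induction j, hij using Nat.le_induction with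
    | base => exact Relation.ReflTransGen.refl
    | succ j _ ih => exact ih.tail (hstep j)
  have hnn : ∀ i, ∀ X, 0 ≤ ν i X := fun i =>
    (reach_basic (hA.trans (hreach 0 i (Nat.zero_le i))) (hs0 0)).1
  have hmass : ∀ i, pair (ν i) (fun _ => 1) = 1 := by
    intro i
    rw [(reach_basic (hA.trans (hreach 0 i (Nat.zero_le i))) (hs0 0)).2.2.1, pair_single]
    norm_num
  obtain ⟨V, hV⟩ : ∃ V : ℕ → ℝ, V = fun i => pair (ν i) (fun X => dK KK X ^ 2) := ⟨_, rfl⟩
  have hVi : ∀ i, V i = pair (ν i) (fun X => dK KK X ^ 2) := fun i => by rw [hV]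
  have hV0 : ∀ i, 0 ≤ V i := fun i => by
    rw [hVi]; exact pair_nonneg _ _ (hnn i) (fun X => sq_nonneg _)
  have hsmall : ∀ ε > 0, ∃ j, V j < ε := by
    intro ε hε
    have : iInf V < ε := by rw [hV, hinf]; exact hε
    exact exists_lt_of_ciInf_lt this
  have hgV : ∀ i, pair (ν i) gg ≤ 2 * V i := by
    intro i
    have := pair_mono (ν i) gg (fun X => 0 + 2 * dK KK X ^ 2) (hnn i) (fun X => by
      have := gg_le_dK X
      linarith)
    rw [pair_lin, ← hVi] at this
    linarith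
  have hg0 : ∀ i, 0 ≤ pair (ν i) gg := fun i => pair_nonneg _ _ (hnn i) gg_nonneg
  have hP : ∀ ε > 0, ∃ j, V j < ε ∧ pair (ν j) gg = 0 := by
    by_cases hz : ∃ j, V j = 0
    · obtain ⟨j, hj⟩ := hz
      intro ε hε
      exact ⟨j, by rw [hj]; exact hε, le_antisymm (by have := hgV j; rw [hj] at this; linarith)
        (hg0 j)⟩
    · push Not at hz
      have hVpos : ∀ i, 0 < V i := fun i => lt_of_le_of_ne (hV0 i) (hz i).symm
      have hlate : ∀ i, ∀ ε > 0, ∃ j, i ≤ j ∧ V j < ε := by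
        intro i
        induction i with
        | zero =>
          intro ε hε
          obtain ⟨j, hj⟩ := hsmall ε hε
          exact ⟨j, Nat.zero_le j, hj⟩
        | succ i ih =>
          intro ε hε
          obtain ⟨j, hj1, hj2⟩ := ih (min ε (V i)) (lt_min hε (hVpos i))
          have h1 : V j < ε := lt_of_lt_of_le hj2 (min_le_left _ _)
          have h2 : V j < V i := lt_of_lt_of_le hj2 (min_le_right _ _)
          have h3 : j ≠ i := fun h => by rw [h] at h2; exact lt_irrefl _ h2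
          exact ⟨j, by omega, h1⟩
      intro ε hε
      obtain ⟨j, hj⟩ := hsmall ε hε
      refine ⟨j, hj, le_antisymm ?_ (hg0 j)⟩
      apply le_of_forall_pos_le_add
      intro δ hδ
      obtain ⟨k, hk1, hk2⟩ := hlate j (δ / 2) (by linarith)
      have := (reach_basic (hreach j k hk1) (hnn j)).2.2.2
      have := hgV k
      linarith
  -- the first splitting
  have hfirst : ∃ σ : Mat 3 3 →₀ ℝ, SplitsPart (Finsupp.single 0 1) σ ∧
      ∀ ε > 0, ∃ j, V j < ε ∧ pair (ν j) gg = 0 ∧ Relation.ReflTransGen SplitsPart σ (ν j) := by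
    rcases Relation.ReflTransGen.cases_head hA with h | ⟨σ, h1, h2⟩
    · refine ⟨ν 1, ?_, ?_⟩
      · rw [h]; exact hstep 0
      · intro ε hε
        have hVz : 0 < V 0 := by
          rw [hVi, ← h, pair_single]
          have := dK_zero_pos
          positivity
        obtain ⟨j, hj1, hj2⟩ := hP (min ε (V 0)) (lt_min hε hVz)
        have h1 : V j < ε := lt_of_lt_of_le hj1 (min_le_left _ _)
        have h2 : V j < V 0 := lt_of_lt_of_le hj1 (min_le_right _ _)
        have h3 : j ≠ 0 := fun h => by rw [h] at h2; exact lt_irrefl _ h2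
        exact ⟨j, h1, hj2, hreach 1 j (by omega)⟩
    · refine ⟨σ, h1, fun ε hε => ?_⟩
      obtain ⟨j, hj1, hj2⟩ := hP ε hε
      exact ⟨j, hj1, hj2, h2.trans (hreach 0 j (Nat.zero_le j))⟩
  obtain ⟨σ, hσ, hQ⟩ := hfirst
  obtain ⟨b1, b2, b3, B, C, D, l, μ, hl, hlB, m0, m1, hB, hr, hn, hp, hq⟩ :=
    split_data hσ (hs0 0)
  have hB0 : B = 0 := by
    by_contra hne
    rw [Finsupp.single_apply, if_neg (fun h => hne h.symm)] at hlB
    linarith
  subst hB0
  have hσg : pair σ gg = 0 := by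
    obtain ⟨j, _, h2, h3⟩ := hQ 1 one_pos
    have := (reach_basic h3 b1).2.2.2
    exact le_antisymm (by linarith) (pair_nonneg _ _ b1 gg_nonneg)
  rw [hp] at hσg
  have g2 := pair_nonneg _ gg hn gg_nonneg
  have g3 : 0 ≤ l * μ * gg C := mul_nonneg (mul_nonneg hl.le m0.le) (gg_nonneg C)
  have g4 : 0 ≤ l * (1 - μ) * gg D :=
    mul_nonneg (mul_nonneg hl.le (by linarith)) (gg_nonneg D)
  have g5 : l * μ * gg C = 0 := by linarith
  have g6 : l * (1 - μ) * gg D = 0 := by linarith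
  have g7 : gg C = 0 := by
    rcases mul_eq_zero.1 g5 with h | h
    · exact absurd h (mul_pos hl m0).ne'
    · exact h
  have g8 : gg D = 0 := by
    rcases mul_eq_zero.1 g6 with h | h
    · exact absurd h (mul_pos hl (by linarith)).ne'
    · exact h
  obtain ⟨c, k, hk⟩ := rank_one_in_span (gg_sub_zero g7 g8) hr
  have hc0 : c ≠ 0 := by
    intro h
    rw [hk, h, zero_smul, Matrix.rank_zero] at hr
    exact absurd hr (by norm_num)
  have hCe : C = ((1 - μ) * c) • R k := by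
    rw [mul_smul, ← hk]
    have : C = C - (μ • C + (1 - μ) • D) := by rw [← hB, sub_zero]
    rw [this]
    conv_rhs => rw [← this]
    module
  have hDe : D = (-(μ * c)) • R k := by
    rw [neg_smul, mul_smul, ← hk]
    have : D = D - (μ • C + (1 - μ) • D) := by rw [← hB, sub_zero]
    rw [this]
    conv_rhs => rw [← this]
    module
  have hpos : 0 < pair σ (ff k) := by
    rw [hp]
    have q1 := pair_nonneg _ (ff k) hn (ff_nonneg k)
    have q2 := ff_nonneg k C
    have q3 := ff_nonneg k D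
    have l1 : 0 < l * μ := mul_pos hl m0
    have l2 : 0 < l * (1 - μ) := mul_pos hl (by linarith)
    rcases lt_or_gt_of_ne hc0 with h | h
    · have : 0 < ff k C := by
        rw [hCe]
        have e : (1 - μ) * c = -((1 - μ) * (-c)) := by ring
        rw [e]
        exact ff_pos k _ (mul_pos (by linarith) (by linarith))
      have := mul_pos l1 this
      have := mul_nonneg l2.le q3
      linarith
    · have : 0 < ff k D := by
        rw [hDe]
        exact ff_pos k _ (mul_pos m0 h)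
      have := mul_pos l2 this
      have := mul_nonneg l1.le q2
      linarith
  obtain ⟨a, ha⟩ : ∃ a, a = pair σ (ff k) := ⟨_, rfl⟩
  rw [← ha] at hpos
  have hη : 0 < a / 2 := by linarith
  have hcc : 0 < 1 / (a / 2) + 4 := by positivity
  obtain ⟨j, j1, j2, j3⟩ := hQ ((a / 2) / (1 / (a / 2) + 4)) (div_pos hη hcc)
  have f1 := reach_ff k j3 b1 j2
  rw [← ha] at f1
  have f2 := pair_mono (ν j) (ff k)
    (fun X => a / 2 + (1 / (a / 2) + 4) * (dK KK X ^ 2)) (hnn j) (fun X => by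
      have h1 := ff_le_dK k X
      have h2 : 2 * dK KK X ≤ a / 2 + 1 / (a / 2) * dK KK X ^ 2 := by
        have h3 : 0 ≤ 1 / (a / 2) * (dK KK X - a / 2) ^ 2 := by positivity
        have h4 : 1 / (a / 2) * (dK KK X - a / 2) ^ 2 =
            1 / (a / 2) * dK KK X ^ 2 - 2 * dK KK X + a / 2 := by
          field_simp
          ring
        linarith
      linarith)
  rw [pair_lin, hmass, ← hVi] at f2
  have f3 : (1 / (a / 2) + 4) * V j < a / 2 := by
    rw [lt_div_iff₀ hcc] at j1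
    linarith
  linarith

theorem Lc_mono {n m : ℕ} (K : Set (Mat n m)) : Lc Splits K ⊆ Lc SplitsPart K := by
  have h1 : ∀ ν ν' : Mat n m →₀ ℝ, Splits ν ν' → SplitsPart ν ν' := by
    rintro ν ν' ⟨B, C, D, μ, h, hs⟩
    exact ⟨B, C, D, ν B, μ, h, le_refl _, hs⟩
  rintro A ⟨ν, ⟨hl, hst⟩, hb, hi⟩
  refine ⟨ν, ⟨fun i => ?_, fun i => h1 _ _ (hst i)⟩, hb, hi⟩
  obtain ⟨A', h⟩ := hl i
  exact ⟨A', Relation.ReflTransGen.mono h1 _ _ h⟩

/-- There are a finite set `K` of real `3 × 3` matrices and a matrix of its rank-one convex hull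
that is not in `L_c(K)`. -/
theorem result : ∃ K : Set (Mat 3 3), K.Finite ∧ K.Nonempty ∧
    (∃ A, A ∈ convRC K ∧ A ∉ Lc Splits K ∧ A ∉ Lc SplitsPart K) ∧
    convRC K ≠ Lc Splits K ∧ convRC K ≠ Lc SplitsPart K := by
  have h1 : (0 : Mat 3 3) ∉ Lc Splits KK := fun h => zero_not_mem (Lc_mono KK h)
  refine ⟨KK, Set.finite_range R, ⟨R 0, 0, rfl⟩, ⟨0, zero_mem_hull, h1, zero_not_mem⟩,
    ?_, ?_⟩
  · intro h; exact h1 (by rw [← h]; exact zero_mem_hull)
  · intro h; exact zero_not_mem (by rw [← h]; exact zero_mem_hull)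

end Pool.Agent.Results.MP_798c84_an.Pinwheel
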